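import Pool.Agent.P8H98.FM.Res
import Pool.Agent.P8H53.FM.Onb
import Pool.Agent.P8H61.FM.Sep
import Pool.Agent.P8H67.FM.TWO
import Pool.Agent.P8H85.FM.LipC
import Pool.Agent.P8H85.FM.LipB
import Pool.Agent.P8H85.FM.Trc
import Pool.Agent.P8H87.FM.Rad
import Pool.Agent.P8H87.FM.One
import Pool.Agent.P8H93.FM.Bet
import Pool.Agent.P8H93.FM.Bet2
import Pool.Agent.P8H93.FM.LA
import Pool.Agent.P8H95.FM.Dens
import Pool.Agent.P8H95.FM.Lnk

/-!
# Multi-point Fisher–Hartwig asymptotics for the spherical Green field (MP_8d6f76_pr)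

The answer to the question is yes. Points of the extended complex plane are represented by the
points of the unit sphere (inverse stereographic projection `Tinv`), so `d(p, q) = ‖p - q‖ / 2`.

Proof. `E ∏_k h(Z_k)` is the determinant of the Toeplitz matrix `T(h)` of the coherent states of the
sphere. One writes the symbol `∏ d(·, p_i)^{γ_i}` as a product of singular factors, equal to one
outside of small disjoint balls, and of Lipschitz factors. `det T(ab) / (det T(a) det T(b))` is the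
determinant of an operator whose Hilbert–Schmidt distance to the identity tends to zero if `b` is
Lipschitz, so its logarithm is the trace, up to `o(1)`, and this trace is additive in `b` and in
the exponents of the singular factors; the singular factors at different points decouple. Hence the
logarithm of the multi-point function is a sum over pairs of points of bilinear functions of the
exponents, which are determined by the case of two opposite charges (starting file
`MP_43990b_pr/FisherHartwig`).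
-/

set_option autoImplicit false

open MeasureTheory Complex Filter Topology

namespace Pool.Agent.Results.MP_8d6f76_pr.MultiPoint

noncomputable section

/-- Euclidean space `ℝ³` -/
abbrev E3 := EuclideanSpace ℝ (Fin 3)

/-- the unit sphere of `ℝ³` -/
abbrev Sph := Metric.sphere (0 : E3) 1

/-- the standard complex Gaussian law, with density `e^{-|w|²} / π` -/
def stdC : Measure ℂ :=
  (volume : Measure ℂ).withDensity fun w => ENNReal.ofReal (Real.exp (-‖w‖ ^ 2) / Real.pi)

/-- `n × n` complex matrices -/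
abbrev Mat (n : ℕ) := Fin n → Fin n → ℂ

/-- the law of an `n × n` matrix with i.i.d. standard complex Gaussian entries -/
def gin (n : ℕ) : Measure (Mat n) := Measure.pi fun _ : Fin n => Measure.pi fun _ : Fin n => stdC

/-- the law of the pair `(A, B)` of independent such matrices -/
def pairs (n : ℕ) : Measure (Mat n × Mat n) := (gin n).prod (gin n)

/-- the eigenvalues of `A B⁻¹`, with their multiplicities, `x = (A, B)` -/
def eig {n : ℕ} (x : Mat n × Mat n) : Multiset ℂ :=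
  (Matrix.of x.1 * (Matrix.of x.2)⁻¹).charpoly.roots

lemma mem_sph (z : ℂ) : (!₂[2 * z.re / (1 + ‖z‖ ^ 2), 2 * z.im / (1 + ‖z‖ ^ 2),
    (‖z‖ ^ 2 - 1) / (1 + ‖z‖ ^ 2)] : E3) ∈ Metric.sphere (0 : E3) 1 :=
  Pool.Agent.K7.H95.GMC.Tinv_mem z

/-- the inverse `T⁻¹ : ℂ → S²` of the stereographic projection
`T(x) = (x₁ + i x₂) / (1 - x₃)` from the north pole, see `T_Tinv` -/
def Tinv (z : ℂ) : Sph := ⟨_, mem_sph z⟩

/-- check: `T (T⁻¹ z) = z` for `T(x) = (x₁ + i x₂) / (1 - x₃)` -/
lemma T_Tinv (z : ℂ) : ((((Tinv z : E3) 0 : ℝ) : ℂ) + Complex.I * (((Tinv z : E3) 1 : ℝ) : ℂ)) /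
    (1 - (((Tinv z : E3) 2 : ℝ) : ℂ)) = z := by
  have hp : (0 : ℝ) < 1 + ‖z‖ ^ 2 := by positivity
  set c : ℝ := 2 / (1 + ‖z‖ ^ 2) with hc
  have hc0 : (c : ℂ) ≠ 0 := by
    rw [Complex.ofReal_ne_zero]; positivity
  have h0 : (Tinv z : E3) 0 = z.re * c := by
    have : (Tinv z : E3) 0 = 2 * z.re / (1 + ‖z‖ ^ 2) := rfl
    rw [this, hc]; ring
  have h1 : (Tinv z : E3) 1 = z.im * c := by
    have : (Tinv z : E3) 1 = 2 * z.im / (1 + ‖z‖ ^ 2) := rfl
    rw [this, hc]; ring
  have h2 : (Tinv z : E3) 2 = 1 - c := by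
    have : (Tinv z : E3) 2 = (‖z‖ ^ 2 - 1) / (1 + ‖z‖ ^ 2) := rfl
    rw [this, hc]; field_simp; ring
  rw [h0, h1, h2]
  have e1 : (1 : ℂ) - ((1 - c : ℝ) : ℂ) = (c : ℂ) := by push_cast; ring
  have e2 : ((z.re * c : ℝ) : ℂ) + Complex.I * ((z.im * c : ℝ) : ℂ) =
      ((z.re : ℂ) + (z.im : ℂ) * Complex.I) * (c : ℂ) := by push_cast; ring
  rw [e1, e2, Complex.re_add_im, mul_div_assoc, div_self hc0, mul_one]

/-- half of the chordal distance -/
def dist2 (p q : Sph) : ℝ := ‖(p : E3) - (q : E3)‖ / 2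

/-- the linear statistic `L_n(g_p) = ∑_k log d(Z_k, p)` -/
def Ln {n : ℕ} (x : Mat n × Mat n) (p : Sph) : ℝ :=
  ((eig x).map fun w => Real.log (dist2 p (Tinv w))).sum

/-- The Barnes `G`-function, by its Weierstrass product
`G(1 + u) = (2π)^{u/2} e^{-(u + u² (1 + γ_E))/2} ∏_{k ≥ 1} (1 + u/k)^k e^{u²/(2k) - u}`. -/
def barnesG (s : ℂ) : ℂ :=
  (2 * (Real.pi : ℂ)) ^ ((s - 1) / 2) *
    Complex.exp (-((s - 1) + (s - 1) ^ 2 * (1 + (Real.eulerMascheroniConstant : ℂ))) / 2) *
    ∏' k : ℕ, (1 + (s - 1) / ((k : ℂ) + 1)) ^ (k + 1) *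
      Complex.exp ((s - 1) ^ 2 / (2 * ((k : ℂ) + 1)) - (s - 1))

/-- the main term of the problem, `s = γ_1 + ... + γ_k` -/
def mainTerm {k : ℕ} (p : Fin k → Sph) (γ : Fin k → ℂ) (n : ℕ) : ℂ :=
  Complex.exp (-(∑ i, γ i) / 2 * n - (∑ i, γ i) / 4 - (∑ i, γ i) ^ 2 / 8) *
    (2 * (Real.pi : ℂ)) ^ ((∑ i, γ i) / 4) * (n : ℂ) ^ ((∑ i, γ i ^ 2) / 8) /
    (∏ i, ∏ j ∈ Finset.univ.filter (fun j => i < j),
      ((dist2 (p i) (p j) : ℝ) : ℂ) ^ (γ i * γ j / 2)) /
    ∏ i, barnesG (1 + γ i / 2)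

open Pool.Agent.P8H98.FM in
/-- **Multi-point Fisher–Hartwig asymptotics.** For all distinct points `p_1, ..., p_k` and all
complex `γ_1, ..., γ_k` with real parts larger than `-2`, `exp (∑ γ_i L_n(g_{p_i}))` is integrable
for every `n` and its expectation, divided by the main term, tends to one. -/
theorem result (k : ℕ) (p : Fin k → Sph) (γ : Fin k → ℂ) (hp : Function.Injective p)
    (hγ : ∀ i, -2 < (γ i).re) :
    (∀ n : ℕ, Integrable (fun x : Mat n × Mat n =>
      Complex.exp (∑ i, γ i * ((Ln x (p i) : ℝ) : ℂ))) (pairs n)) ∧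
    Tendsto (fun n : ℕ => (∫ x : Mat n × Mat n,
      Complex.exp (∑ i, γ i * ((Ln x (p i) : ℝ) : ℂ)) ∂pairs n) / mainTerm p γ n) atTop (𝓝 1) := by
  have hK : S_KER := P8H53.FM.ker
  have hO : S_ONB := P8H53.FM.onb'
  have hLA : S_LA := P8H93.FM.la
  have hT : S_TRC := P8H85.FM.trc hK hO
  have hL : S_LIP := P8H85.FM.lip hK hO
  have hL2 : S_LIP2 := P8H85.FM.lip_two hK hO
  have hM : S_MUL := mul hK hLA hT hL hL2
  have hS : S_SEP := P8H61.FM.sep hK hO.1 hLA hL hT
  have hR : S_RAD := P8H87.FM.rad hK hO P8H93.FM.bet P8H93.FM.bet2 hL hT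
  have h1 : S_ONE := P8H87.FM.one hO
  have hN : S_LNK := P8H95.FM.lnk P8H95.FM.dens hK hO
  have h2 : S_TWO := P8H67.FM.two hN h1
  exact res (asm hK hO hL hM hS hR h2) h1 hN k p γ hp hγ

end

end Pool.Agent.Results.MP_8d6f76_pr.MultiPoint
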